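import Pool.Agent.R12.BookTab

set_option autoImplicit false

/-!
# Super edge-magic labelings of book graphs

For every `n ≥ 5` the book `K_{1,n} □ K_2` is super edge-magic if and only if `n` is even or
`n ≡ 5 (mod 8)`.
-/

namespace Pool.Agent.Results.MP_a60869_co.Books

open Pool.Agent.R12.SEM

/-- For `n ≥ 5`, the book `B_n = K_{1,n} □ K_2` is super edge-magic if and only if `n` is even or
`n ≡ 5 (mod 8)`. -/
theorem result : ∀ n : ℕ, 5 ≤ n →
    (SuperEdgeMagic (completeBipartiteGraph (Fin 1) (Fin n) □ (⊤ : SimpleGraph (Fin 2))) ↔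
      (Even n ∨ n % 8 = 5)) := by
  intro n hn
  constructor
  · exact Pool.Agent.R12.Book.book_nec n
  · rintro (h | h)
    · exact Pool.Agent.R12.Book.book_even n hn h
    · exact Pool.Agent.R12.Book.book_odd n h

end Pool.Agent.Results.MP_a60869_co.Books
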